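import Mathlib
import Pool.Agent.TH497.PW.IntFlow
import Pool.Agent.TH362.FP.Pos
import Pool.Agent.Y335.FL.Main
import Pool.Agent.H789.F5.Lift

set_option autoImplicit false

/-!
# Graphs without 126 disjoint odd cuts (MP_974d84_co)

Let `G` be a bridgeless multigraph and let `F` be the union of cycles `C_1, ..., C_m`, each with at
most eleven edges outside of the union of the earlier ones (`m = 0` is allowed; `F` can be the union
of all circuits with at most eleven edges).  Suppose that there are no 126 pairwise disjoint vertex
sets each with an odd number of boundary edges, none of them in `F` (i.e. at most 125 components of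
`(V, F)` have an odd number of boundary edges).  Then `G` has a nowhere-zero 5-flow, and the
characteristic polynomial of its bond matroid is positive at all integers `q ≥ 5`.

In particular (`oddVertices`) this holds for all bridgeless graphs with at most 125 vertices of odd
degree; the order, the degrees and the connectivity are arbitrary.  Another example: a bridgeless
cubic graph with a 2-factor such that the number of the odd circuits of length at most eleven plus
the number of the vertices on the other circuits of length at least twelve is at most 125.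

Proof.  By the starting library one may contract `F`.  Now at most 125 vertices have odd degree.
Vertices of even degree can be split off without creating a bridge (Zhang's theorem on odd
edge connectivity three, starting library `H185F`); this does not change the parities.  So the graph
has at most 125 vertices which are not isolated, and the theorem of the starting files on the order
of the smallest counterexample applies.
-/

namespace Pool.Agent.Results.MP_974d84_co.DisjointOddCuts

open Pool.Agent.TH497.PW

variable {V E : Type}

/-- The edges with exactly one end in `X`. -/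
def boundary [DecidableEq V] [Fintype E] (src dst : E → V) (X : Finset V) : Finset E :=
  Finset.univ.filter (fun e => ¬ (src e ∈ X ↔ dst e ∈ X))

/-- Kirchhoff's law. -/
def IsFlow [DecidableEq V] [Fintype E] (src dst : E → V) (f : E → ℤ) : Prop :=
  ∀ v : V, ∑ e ∈ Finset.univ.filter (fun e => src e = v), f e
    = ∑ e ∈ Finset.univ.filter (fun e => dst e = v), f e

/-- `C` is the support of a flow with values in `{0, 1, -1}` (a union of edge-disjoint circuits
which can be oriented). -/
def IsCycle [DecidableEq V] [Fintype E] (src dst : E → V) (C : Finset E) : Prop :=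
  ∃ z : E → ℤ, IsFlow src dst z ∧ (∀ e, z e = 0 ∨ z e = 1 ∨ z e = -1) ∧ ∀ e, z e ≠ 0 ↔ e ∈ C

/-- The union of the sets `C i`. -/
def unionOf [Fintype E] [DecidableEq E] {m : ℕ} (C : Fin m → Finset E) : Finset E :=
  Finset.univ.biUnion C

/-- All `C i` are cycles, each with at most eleven edges outside of the union of the earlier
ones. -/
def ShortCycles [DecidableEq V] [Fintype E] [DecidableEq E] (src dst : E → V) {m : ℕ}
    (C : Fin m → Finset E) : Prop :=
  (∀ i, IsCycle src dst (C i)) ∧
  ∀ i, (C i \ (Finset.univ.filter (fun j => j < i)).biUnion C).card ≤ 11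

/-- The number of the components of the graph with the vertices `V` and the edges `A`. -/
noncomputable def components (src dst : E → V) (A : Finset E) : ℕ :=
  Nat.card (SimpleGraph.fromRel
    (fun u v : V => ∃ e ∈ A, src e = u ∧ dst e = v)).ConnectedComponent

/-- The rank of `A` in the cycle matroid of the graph. -/
noncomputable def cycleRank [Fintype V] (src dst : E → V) (A : Finset E) : ℕ :=
  Fintype.card V - components src dst A

/-- The rank of `A` in the bond matroid of the graph (the dual of the cycle matroid). -/
noncomputable def bondRank [Fintype V] [Fintype E] [DecidableEq E] (src dst : E → V)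
    (A : Finset E) : ℕ :=
  A.card + cycleRank src dst Aᶜ - cycleRank src dst Finset.univ

/-- The characteristic polynomial of the bond matroid at the integer `x`. -/
noncomputable def bondCharPoly [Fintype V] [Fintype E] [DecidableEq E] (src dst : E → V)
    (x : ℤ) : ℤ :=
  ∑ A : Finset E, (-1) ^ A.card * x ^ (bondRank src dst Finset.univ - bondRank src dst A)

theorem isFlow_iff [DecidableEq V] [Fintype E] (src dst : E → V) (f : E → ℤ) :
    IsFlow src dst f ↔
      ∀ v, ∑ e, f e * ((if src e = v then 1 else 0) - (if dst e = v then 1 else 0)) = 0 := by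
  unfold IsFlow
  refine forall_congr' fun v => ?_
  rw [Finset.sum_filter, Finset.sum_filter, ← sub_eq_zero, ← Finset.sum_sub_distrib]
  have : ∀ e, (if src e = v then f e else 0) - (if dst e = v then f e else 0)
      = f e * ((if src e = v then 1 else 0) - (if dst e = v then 1 else 0)) := by
    intro e
    by_cases h1 : src e = v <;> by_cases h2 : dst e = v <;> simp [h1, h2]
  rw [Finset.sum_congr rfl (fun e _ => this e)]

theorem nzf [Fintype V] [DecidableEq V] [Fintype E] [DecidableEq E] (src dst : E → V)
    (h : Pool.Agent.TH676.Z.FlowOn src dst ∅ ∅) : NZF src dst := by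
  obtain ⟨f, h1, _, h3⟩ := h
  refine ⟨f, fun e => h3 e (Finset.notMem_empty _) (Finset.notMem_empty _), fun x => ?_⟩
  rw [← h1 x]
  unfold Pool.Agent.TH676.Z.bd
  refine Finset.sum_congr rfl fun e _ => ?_
  unfold ic
  by_cases h4 : src e = x <;> by_cases h5 : dst e = x <;> simp [h4, h5]

theorem charPoly_pos [Fintype V] [DecidableEq V] [Fintype E] [DecidableEq E] (src dst : E → V)
    (f : E → ℤ) (h1 : IsFlow src dst f) (h2 : ∀ e, 1 ≤ |f e| ∧ |f e| ≤ 4) (q : ℕ) (hq : 5 ≤ q) :
    0 < bondCharPoly src dst q :=
  Pool.Agent.TH362.FP.chr_pos src dst f h2 h1 q hq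

/-- the reduction modulo five of a flow with values in `{0, 1, -1}` -/
theorem mod5 [Fintype V] [DecidableEq V] [Fintype E] [DecidableEq E] (src dst : E → V)
    (C : Finset E) (h : IsCycle src dst C) :
    ∃ z : E → ZMod 5, (∀ v, Pool.Agent.TH676.Z.bd src dst z v = 0) ∧
      (∀ e, z e = 0 ∨ z e = 1 ∨ z e = -1) ∧ ∀ e, z e ≠ 0 ↔ e ∈ C := by
  obtain ⟨z, h1, h2, h3⟩ := h
  refine ⟨fun e => ((z e : ℤ) : ZMod 5), fun v => ?_, fun e => ?_, fun e => ?_⟩
  · have h4 := h1 v
    rw [Finset.sum_filter, Finset.sum_filter, ← sub_eq_zero, ← Finset.sum_sub_distrib] at h4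
    have h5 := congrArg (fun t : ℤ => (t : ZMod 5)) h4
    simp only [Int.cast_sum, Int.cast_sub, Int.cast_zero] at h5
    refine Eq.trans ?_ h5
    unfold Pool.Agent.TH676.Z.bd
    rw [Finset.sum_sub_distrib, Finset.sum_sub_distrib]
    congr 1 <;>
    · refine Finset.sum_congr rfl fun e _ => ?_
      split_ifs <;> simp
  · rcases h2 e with h | h | h <;> simp [h]
  · rw [← h3 e]
    have h10 : (1 : ZMod 5) ≠ 0 := by decide
    rcases h2 e with h | h | h <;> simp [h, h10]

theorem result :
    ∀ (V E : Type) [Fintype V] [DecidableEq V] [Fintype E] [DecidableEq E] (src dst : E → V)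
      (m : ℕ) (C : Fin m → Finset E), ShortCycles src dst C →
      (¬ ∃ X : Fin 126 → Finset V, (∀ i j, i ≠ j → Disjoint (X i) (X j)) ∧
        ∀ i, Odd (boundary src dst (X i)).card ∧
          Disjoint (boundary src dst (X i)) (unionOf C)) →
      (∀ Y : Finset V, (boundary src dst Y).card ≠ 1) →
      (∃ f : E → ℤ, IsFlow src dst f ∧ ∀ e, 1 ≤ |f e| ∧ |f e| ≤ 4) ∧
      ∀ q : ℕ, 5 ≤ q → 0 < bondCharPoly src dst q := by
  intro V E _ _ _ _ src dst m C hC h hb
  have hfl := Pool.Agent.H789.F5.flow_of_odd_lift Pool.Agent.Y335.FL.contract_all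
    Pool.Agent.Y335.FL.ahl Pool.Agent.Y335.FL.lift_all src dst m C
    ⟨fun i => mod5 src dst (C i) (hC.1 i), hC.2⟩ h
    (fun Y _ => by rw [Finset.sdiff_empty]; exact hb Y)
  obtain ⟨F, hF, hF0⟩ := int_flow src dst (nzf src dst hfl)
  have hF1 := (isFlow_iff src dst F).mpr hF0
  exact ⟨⟨F, hF1, hF⟩, fun q hq => charPoly_pos src dst F hF1 hF q hq⟩

/-- Consequence: at most 125 vertices have odd degree (loops do not change the parity). -/
theorem oddVertices (V E : Type) [Fintype V] [DecidableEq V] [Fintype E] [DecidableEq E]
    (src dst : E → V)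
    (h : (Finset.univ.filter (fun v => Odd (boundary src dst {v}).card)).card ≤ 125)
    (hb : ∀ Y : Finset V, (boundary src dst Y).card ≠ 1) :
    ∃ f : E → ℤ, IsFlow src dst f ∧ ∀ e, 1 ≤ |f e| ∧ |f e| ≤ 4 := by
  have hfl := Pool.Agent.H789.F5.flow_of_odd Pool.Agent.Y335.FL.contract_all
    Pool.Agent.Y335.FL.ahl src dst h (fun Y _ => by rw [Finset.sdiff_empty]; exact hb Y)
  obtain ⟨F, hF, hF0⟩ := int_flow src dst (nzf src dst hfl)
  exact ⟨F, (isFlow_iff src dst F).mpr hF0, hF⟩

end Pool.Agent.Results.MP_974d84_co.DisjointOddCuts
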