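import Mathlib
import Pool.Agent.Y335.FL.Main
import Pool.Agent.Y335.FL.Local11
import Pool.Agent.Helper151_VT.Conv
import Pool.Agent.Helper151_VT.Bip
import Pool.Agent.Helper151_VT.Graph

set_option autoImplicit false

/-!
# Nowhere-zero 5-flows of edge-transitive graphs (MP_974d84_co)

Let `G` be a finite connected multigraph with all degrees at least three whose automorphism group
is transitive on the edges.  If `G` has no nowhere-zero 5-flow, then `G` is vertex-transitive, cubic
and 3-edge-connected, all its edge cuts with three edges are stars of vertices, and all its circuits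
have at least twelve edges.  In all other cases the characteristic polynomial of the bond matroid of
`G` is positive at all integers `q ≥ 5`.

In particular (`simpleGraph`) a connected edge-transitive simple graph with minimum degree at least
three has a nowhere-zero 5-flow if it is not regular of degree three, or not vertex-transitive, or
if its girth is at most eleven.

Proof.  Let `X` be a smallest set with the minimum number of boundary edges, or (if all edge cuts
have at least three edges) a set with three boundary edges and at most half of the vertices.  Then
`X` is a block of the automorphism group (submodularity and parity).  An edge inside `X` could be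
mapped to a boundary edge of `X`, so there is none, and `X` has at least `|X| d` boundary edges,
where `d` is the minimum degree.  So the edge connectivity is `d`, and edge cuts with three edges
are stars.  If `d ≥ 4` there are no such cuts.  If `d = 3` and `G` is not cubic, then no edge joins
two vertices of degree three, so that the stars of these vertices are disjoint, and the local
condition for 3-edge-cuts of the starting library (`Y335/FL`, `H222F/Local`) is satisfied.  If
there is a circuit with at most eleven edges then all edges lie in such circuits, which can be
contracted by the starting library.  A cubic edge-transitive graph which is not vertex-transitive is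
bipartite, and by Hall's theorem it has a flow with the values `1` and `-2`.
-/

namespace Pool.Agent.Results.MP_974d84_co.EdgeTransitive

open Pool.Agent.Helper151_VT

theorem result :
    ∀ (V E : Type) [Fintype V] [DecidableEq V] [Fintype E] [DecidableEq E] (src dst : E → V),
      EdgeTransitive src dst →
      (∀ X : Finset V, X.Nonempty → X ≠ Finset.univ → 1 ≤ (boundary src dst X).card) →
      (∀ x, 3 ≤ (boundary src dst {x}).card) →
      (HasFiveFlow src dst ∧ ∀ q : ℕ, 5 ≤ q → 0 < bondCharPoly src dst q) ∨
      (VertexTransitive src dst ∧ Residual src dst ∧ ¬ HasFiveFlow src dst) := by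
  intro V E _ _ _ _ src dst hE hconn hdeg
  by_cases hf : Pool.Agent.TH676.Z.FlowOn src dst ∅ ∅
  · exact Or.inl (of_flowOn src dst hf)
  · right
    obtain ⟨h1, h2⟩ := edge_reduction' (Pool.Agent.Y335.FL.local11 Pool.Agent.Y335.FL.quot'
      Pool.Agent.Y335.FL.lift_all) hE hconn hdeg hf
    exact ⟨h1, h2, fun h => hf (to_flowOn _ _ h)⟩

/-- The consequence for simple graphs. -/
theorem simpleGraph (V : Type) [Fintype V] [DecidableEq V] (G : SimpleGraph V)
    [DecidableRel G.Adj] (hconn : G.Connected) (hdeg : ∀ v, 3 ≤ G.degree v)
    (hE : ∀ a b : G.edgeSet, ∃ φ : G ≃g G, φ.mapEdgeSet a = b)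
    (h : ¬ G.IsRegularOfDegree 3 ∨ (∃ u v : V, ∀ φ : G ≃g G, φ u ≠ v) ∨ G.girth ≤ 11)
    (src dst : G.edgeSet → V) (hends : ∀ e : G.edgeSet, s(src e, dst e) = (e : Sym2 V)) :
    HasFiveFlow src dst ∧ ∀ q : ℕ, 5 ≤ q → 0 < bondCharPoly src dst q := by
  have hE' : EdgeTransitive src dst := by
    intro a b
    obtain ⟨φ, hφ⟩ := hE a b
    exact ⟨φ.toEquiv, φ.mapEdgeSet, isAut_iso hends φ, hφ⟩
  rcases result V G.edgeSet src dst hE' (conn_cuts hends hconn)
    (fun x => by rw [card_boundary_deg hends]; exact hdeg x) with h1 | ⟨hT, hres, -⟩
  · exact h1
  · exfalso
    rcases h with h | h | h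
    · apply h
      intro x
      rw [← hres.cubic x, card_boundary_deg hends]
    · obtain ⟨u, v, huv⟩ := h
      obtain ⟨σ, τ, hστ, hσ⟩ := hT u v
      exact huv (isoOfAut hends hστ) hσ
    · obtain ⟨n, v, ed, hc, hn⟩ := circuit_of_girth hends (SimpleGraph.three_le_girth
        (not_acyclic hconn (fun v => (hdeg v).trans' (by norm_num)))) rfl
      have := hres.girth n v ed hc
      omega

end Pool.Agent.Results.MP_974d84_co.EdgeTransitive
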